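import Mathlib
import Pool.Agent.H24.DjDefs
import Pool.Agent.H24.Dj2

namespace Pool.Agent.Results.MP_390221_co.Yes
open Pool.Agent.H24.DjDefs

theorem result (V : Type) [Fintype V] [DecidableEq V] (G : SimpleGraph V) [DecidableRel G.Adj]
    (p : V → EuclideanSpace ℝ (Fin 2)) (hinj : Function.Injective p)
    (hgen : ∀ x y z, x ≠ y → y ≠ z → x ≠ z → ¬ Collinear ℝ {p x, p y, p z})
    (n e : ℕ) (hn : n = Fintype.card V) (he : e = G.edgeFinset.card) :
    (∀ m : ℕ, e * m.choose 2 ≤ (DJ G p).ncard + n * (m + 1).choose 3) ∧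
    (n ≤ 2 * e → (n : ℝ) / 2 * ((2 * e / n : ℝ) * (2 * e / n - 1) * (2 * e / n - 2) / 6) ≤
      (DJ G p).ncard) := by
  subst hn he
  exact ⟨Pool.Agent.H24.Dj2.main G p hinj hgen,
    Pool.Agent.H24.Dj2.real_form _ _ _ (Pool.Agent.H24.Dj2.main G p hinj hgen)⟩

end Pool.Agent.Results.MP_390221_co.Yes
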